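import Pool.Agent.H605Z.Pol.Final

/-!
# `R_κ(ℵ₁)` is independent of ZFC + GCH (modulo a supercompact cardinal)
-/

set_option autoImplicit false

namespace Pool.Agent.Results.MP_bc45ee_lc.AIndependent

open Cardinal Pool.Agent.H605Z.Pol Pool.Agent.Helper980.G Pool.Agent.H68Z.Inj

/-- Assume GCH and let `κ₀` be supercompact. For both truth values `b`: some forcing notion forces
GCH and decides `R_{ℵ_ω}(ℵ₁)` (computed in the extension) according to `b`; and for every
`κ > κ₀` of countable cofinality some forcing notion preserves `κ` and `κ⁺`, forces GCH and decides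
`R_κ(ℵ₁)` according to `b`. -/
theorem result (hG : ∀ ν : Cardinal.{0}, ℵ₀ ≤ ν → 2 ^ ν = Order.succ ν) (κ₀ : Cardinal.{0})
    (h : IsSupercompact κ₀) (b : Bool) :
    (∃ (P : Type) (_ : Preorder P) (a : ℕ → Cardinal.{0}), Alephs P a ∧
      Setting P (a 1) (⨆ n, a n) ∧ Decides b (RelationR P (⨆ n, a n).ord.ToType
        (Order.succ (⨆ n, a n)).ord.ToType (a 1).ord.ToType)) ∧
    ∀ κ : Cardinal.{0}, κ₀ < κ → κ.ord.cof = ℵ₀ →
      ∃ (P : Type) (_ : Preorder P) (w : Cardinal.{0}), Setting P w κ ∧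
        Decides b (RelationR P κ.ord.ToType (Order.succ κ).ord.ToType w.ord.ToType) :=
  mainR hG κ₀ h b

end Pool.Agent.Results.MP_bc45ee_lc.AIndependent
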